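import Pool.Agent.W2helper35.AltTor.Main
set_option autoImplicit false

/-!
# Free alternative algebras are not free modules in general: torsion of order 3
-/

namespace Pool.Agent.Results.MP_2692c1_al.ThreeTorsion
open Pool.Agent.Helper805.Nuc.Free Pool.Agent.W2helper35.AltTor

/-- Let `X` be a set with at least six elements (for example a countably infinite set).
The free alternative ring on `X` has an element of additive order `3`, so it is not a free abelian group; and for
a commutative ring `Φ`, the free alternative `Φ`-algebra on `X` is a flat `Φ`-module only if `3 = 9 s` for some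
`s` in `Φ`. -/
theorem _root_.Pool.Agent.Results.MP_2692c1_al.ThreeTorsion.result
    (X : Type) (hX : ∃ g : Fin 6 → X, Function.Injective g) :
    (∃ f : FreeAlt ℤ X, f ≠ 0 ∧ (3 : ℤ) • f = 0) ∧
    ¬ Module.Free ℤ (FreeAlt ℤ X) ∧
    ∀ (Φ : Type) [CommRing Φ], Module.Flat Φ (FreeAlt Φ X) → ∃ s : Φ, 9 * s = 3 := by
  obtain ⟨g0, hg0⟩ := hX
  let g : ℕ → X := fun i => g0 (Fin.ofNat 6 i)
  have hg : Set.InjOn g (Set.Iio 6) := by
    intro i hi j hj hij
    have h1 := congrArg Fin.val (hg0 hij)
    have h2 : i < 6 := hi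
    have h3 : j < 6 := hj
    simpa [Fin.ofNat, Nat.mod_eq_of_lt h2, Nat.mod_eq_of_lt h3] using h1
  have hflat : ∀ (Φ : Type) [CommRing Φ], Module.Flat Φ (FreeAlt Φ X) → ∃ s : Φ, 9 * s = 3 := by
    intro Φ _ hF
    exact flat_three hg
  refine ⟨⟨tor ℤ X g, tor_ne_zero hg (by rw [Int.isUnit_iff]; omega), three_tor ℤ X g⟩, ?_, hflat⟩
  intro hfree
  have h1 : Module.Flat ℤ (FreeAlt ℤ X) := Module.Flat.of_free
  have h2 : (AddCommGroup.toIntModule (FreeAlt ℤ X) : Module ℤ (FreeAlt ℤ X)) = FreeAlt.instModule :=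
    Subsingleton.elim _ _
  rw [h2] at h1
  obtain ⟨s, hs⟩ := hflat ℤ h1
  omega

end Pool.Agent.Results.MP_2692c1_al.ThreeTorsion
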